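import Pool.Agent.H389R2.NS.SumSp

/-! Averages over a random set of resampled edges, and moments of the spectral sample. -/

set_option autoImplicit false

namespace Pool.Agent.Y629.SN

open H974 H12S H389NS Finset

section Gen

variable {E : Type*} [DecidableEq E]

theorem Ex_disj (h : ℝ) (D V : Finset E) :
    Ex (fun _ => h) V (fun W => if Disjoint D W then (1:ℝ) else 0) =
      (1 - h) ^ (D ∩ V).card := by
  induction V using Finset.induction_on with
  | empty => simp [Ex_empty]
  | insert a V ha ih =>
    rw [Ex_insert _ ha, ih]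
    by_cases haD : a ∈ D
    · have h1 : (fun F : Finset E => if Disjoint D (insert a F) then (1:ℝ) else 0) =
          fun _ => 0 := by
        funext F
        rw [if_neg]
        intro hd
        exact (Finset.disjoint_left.1 hd haD) (mem_insert_self _ _)
      rw [h1, Ex_const]
      have h2 : D ∩ insert a V = insert a (D ∩ V) := by
        ext x
        simp only [mem_inter, mem_insert]
        constructor
        · rintro ⟨h1, h2 | h2⟩
          · exact Or.inl h2
          · exact Or.inr ⟨h1, h2⟩
        · rintro (h1 | h1)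
          · subst h1
            exact ⟨haD, Or.inl rfl⟩
          · exact ⟨h1.1, Or.inr h1.2⟩
      rw [h2, card_insert_of_notMem (fun h3 => ha (mem_inter.1 h3).2), pow_succ]
      ring
    · have h1 : (fun F : Finset E => if Disjoint D (insert a F) then (1:ℝ) else 0) =
          fun F => if Disjoint D F then (1:ℝ) else 0 := by
        funext F
        have : Disjoint D (insert a F) ↔ Disjoint D F := by
          rw [Finset.disjoint_insert_right]
          tauto
        simp only [this]
      rw [h1, ih]
      have h2 : D ∩ insert a V = D ∩ V := by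
        ext x
        simp only [mem_inter, mem_insert]
        constructor
        · rintro ⟨g1, g2 | g2⟩
          · subst g2
            exact absurd g1 haD
          · exact ⟨g1, g2⟩
        · rintro ⟨h1, h2⟩
          exact ⟨h1, Or.inr h2⟩
      rw [h2]
      ring

theorem avg_sum (h : ℝ) (V B : Finset E) (μ : Finset E → ℝ) :
    Ex (fun _ => h) V (fun W => ∑ T ∈ (V \ (W \ B)).powerset, μ T) =
      ∑ T ∈ V.powerset, μ T * (1 - h) ^ (T \ B).card := by
  have h1 : ∀ W : Finset E, W ⊆ V → ∑ T ∈ (V \ (W \ B)).powerset, μ T =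
      ∑ T ∈ V.powerset, μ T * (if Disjoint (T \ B) W then (1:ℝ) else 0) := by
    intro W _
    simp_rw [mul_ite, mul_one, mul_zero]
    rw [← sum_filter]
    apply sum_congr _ fun _ _ => rfl
    ext T
    rw [mem_powerset, mem_filter, mem_powerset]
    constructor
    · intro hT
      refine ⟨hT.trans sdiff_subset, ?_⟩
      rw [Finset.disjoint_left]
      intro x hx hxW
      rw [mem_sdiff] at hx
      exact (mem_sdiff.1 (hT hx.1)).2 (mem_sdiff.2 ⟨hxW, hx.2⟩)
    · rintro ⟨hT, hd⟩ x hx
      rw [mem_sdiff]
      refine ⟨hT hx, fun h3 => ?_⟩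
      rw [mem_sdiff] at h3
      exact (Finset.disjoint_left.1 hd (mem_sdiff.2 ⟨hx, h3.2⟩)) h3.1
  rw [Ex_congr h1, Ex_sum]
  refine sum_congr rfl fun T hT => ?_
  rw [Ex_mul_left, Ex_disj]
  congr 3
  exact inter_eq_left.2 (sdiff_subset.trans (mem_powerset.1 hT))

theorem first_count (P : Finset (Finset E)) (B : Finset E) (μ : Finset E → ℝ) :
    ∑ x ∈ B, ∑ T ∈ P.filter (fun T => x ∈ T), μ T = ∑ T ∈ P, μ T * ((T ∩ B).card : ℝ) := by
  simp_rw [Finset.sum_filter]
  rw [Finset.sum_comm]
  refine Finset.sum_congr rfl fun T _ => ?_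
  rw [← Finset.sum_filter, Finset.sum_const, nsmul_eq_mul, mul_comm]
  congr 3
  ext x
  simp [and_comm]

theorem second_count (P : Finset (Finset E)) (B : Finset E) (μ : Finset E → ℝ) :
    ∑ x ∈ B, ∑ y ∈ B, ∑ T ∈ P.filter (fun T => x ∈ T ∧ y ∈ T), μ T =
      ∑ T ∈ P, μ T * ((T ∩ B).card : ℝ) ^ 2 := by
  simp_rw [Finset.sum_filter]
  have : ∀ x ∈ B, ∑ y ∈ B, ∑ T ∈ P, (if x ∈ T ∧ y ∈ T then μ T else 0)
      = ∑ T ∈ P, (if x ∈ T then ((T ∩ B).card : ℝ) * μ T else 0) := by
    intro x _
    rw [Finset.sum_comm]
    refine Finset.sum_congr rfl fun T _ => ?_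
    by_cases hx : x ∈ T
    · simp only [hx, true_and, if_true]
      rw [← Finset.sum_filter, Finset.sum_const, nsmul_eq_mul]
      congr 3
      ext y
      simp [and_comm]
    · simp [hx]
  rw [Finset.sum_congr rfl this, Finset.sum_comm]
  refine Finset.sum_congr rfl fun T _ => ?_
  rw [← Finset.sum_filter, Finset.sum_const, nsmul_eq_mul]
  have : (B.filter (fun x => x ∈ T)) = T ∩ B := by
    ext x
    simp [and_comm]
  rw [this]
  ring

end Gen

end Pool.Agent.Y629.SN
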