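import Pool.Agent.Y554.SN.Stm2
import Pool.Agent.H389R2.NS.QScale
import Pool.Agent.Y629.SN.Avg

/-! First moment of the spectral sample in a doubling block. -/

set_option autoImplicit false

namespace Pool.Agent.Y629.SN

open H974 H12S H985T H389NS Finset Pool.Agent.Y554.SN

/-- First moment in a block. -/
theorem fst_eq {p : Edg → ℝ} {S V W B : Finset Edg} (hVS : V ⊆ S)
    (hV2 : ∀ e ∈ V, p e = 1 / 2) (hWV : W ⊆ V) (hB : B ⊆ V \ W) (I J : Set Vtx) :
    ∑ x ∈ B, UA p S W (fun F => Pv I J x ↑F) =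
      4 * ∑ T ∈ (V \ W).powerset, sp p S V (fC I J) T * ((T ∩ B).card : ℝ) := by
  rw [← first_count, mul_sum]
  refine sum_congr rfl fun x hx => ?_
  rw [sum_sp_mem hVS hV2 hWV (fC I J) (hB hx), QH.UU_dif]
  ring

/-- Second moment in a block. -/
theorem snd_le : ∃ C : ℝ, 0 < C ∧ ∀ t : ℕ, 1 ≤ t → ∀ (p : Edg → ℝ) (S : Finset Edg)
    (I J I' J' : Set Vtx) (c : ℤ × ℤ), DomB p S I J I' J' c (4 * t) → ∀ V W : Finset Edg,
    V ⊆ S → (∀ e ∈ V, p e = 1 / 2) → W ⊆ V → blk c (4 * t) ⊆ V →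
    Disjoint W (blk c (4 * t)) →
      ∑ T ∈ (V \ W).powerset, sp p S V (fC I J) T * ((T ∩ blk c t).card : ℝ) ^ 2 ≤
        C * (t : ℝ) ^ (3/2 : ℝ) * UA p S W (fun F => BPv I J (blk c (4 * t)) ↑F) := by
  obtain ⟨C1, hC1, hO⟩ := q_one
  obtain ⟨C2, hC2, hS2⟩ := q_second
  refine ⟨C1 + C2, by positivity, ?_⟩
  intro s hs1 p S I J I' J' c hD V W hVS hV2 hWV hbV hWb
  have hO' := hO s hs1 p S I J I' J' c hD W (hWV.trans hVS) hWb
  have hS' := hS2 s hs1 p S I J I' J' c hD W (hWV.trans hVS) hWb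
  have hp := hD.ok
  set U4 := UA p S W (fun F => BPv I J (blk c (4 * s)) ↑F) with hU4
  have hU40 : 0 ≤ U4 := QH.UA_nonneg hp _ _ _
  set B := blk c s with hB
  have hB4 : B ⊆ blk c (4 * s) := QH.blk_sub (by omega)
  have hBW : Disjoint W B := Finset.disjoint_of_subset_right hB4 hWb
  have hBVW : B ⊆ V \ W := by
    intro x hx
    rw [mem_sdiff]
    exact ⟨hbV (hB4 hx), fun h => (Finset.disjoint_left.1 hBW h) hx⟩
  have hsR : (1 : ℝ) ≤ (s : ℝ) := by exact_mod_cast hs1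
  have hXX : (s : ℝ) ^ (3/4 : ℝ) ≤ (s : ℝ) ^ (3/2 : ℝ) :=
    Real.rpow_le_rpow_of_exponent_le hsR (by norm_num)
  set X : ℝ := (s : ℝ) ^ (3/4 : ℝ) with hX
  set Y : ℝ := (s : ℝ) ^ (3/2 : ℝ) with hY
  have hX0 : 0 ≤ X := by positivity
  have hY0 : 0 ≤ Y := by positivity
  rw [← second_count]
  have e1 : ∀ x ∈ B, ∑ y ∈ B, ∑ T ∈ (V \ W).powerset.filter (fun T => x ∈ T ∧ y ∈ T),
      sp p S V (fC I J) T = (1 / 4) * UA p S W (fun F => Pv I J x ↑F) +
        (1 / 16) * ∑ y ∈ B.erase x, UU p S W (dif x (dif y (fC I J))) := by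
    intro x hx
    rw [← add_sum_erase _ _ hx, mul_sum]
    congr 1
    · have : (V \ W).powerset.filter (fun T => x ∈ T ∧ x ∈ T) =
          (V \ W).powerset.filter (fun T => x ∈ T) := by
        apply filter_congr
        intro T _
        exact and_self_iff
      rw [this, sum_sp_mem hVS hV2 hWV (fC I J) (hBVW hx), QH.UU_dif]
    · refine sum_congr rfl fun y hy => ?_
      rw [mem_erase] at hy
      exact sum_sp_two hVS hV2 hWV (fC I J) (hBVW hx) (hBVW hy.2) hy.1.symm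
  rw [sum_congr rfl e1, sum_add_distrib, ← mul_sum, ← mul_sum]
  have b1 : C1 * X * U4 ≤ C1 * Y * U4 := by
    have := mul_le_mul_of_nonneg_left hXX hC1.le
    exact mul_le_mul_of_nonneg_right this hU40
  have b2 : 0 ≤ C1 * Y * U4 := by positivity
  have b3 : 0 ≤ C2 * Y * U4 := by positivity
  nlinarith

theorem alg1 (c X M K : ℝ) (hK : 0 < K) : c * X * M / (8 * K) = c * X * (M / (2 * K)) / 4 := by
  field_simp
  ring

theorem alg2 (c X M K C : ℝ) (hK : 0 < K) (hC : 0 < C) :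
    (c / (128 * K * C)) * (8 * C * X * M) = c * X * M / (16 * K) := by
  field_simp
  ring

theorem alg3 (c X M K : ℝ) (hK : 0 < K) :
    c / (16 * K) * X * M = c * X * M / (8 * K) - c * X * M / (16 * K) := by
  field_simp
  ring

theorem alg4 (M K : ℝ) (hK : 0 < K) : M / (2 * K) = M / K - M / (2 * K) := by
  field_simp
  ring

theorem alg5 {c X M K C h X1 X2 R : ℝ} (hc : 0 < c) (hX : 0 < X) (hM : 0 ≤ M) (hK : 0 < K)
    (hC : 0 < C) (h0 : 0 ≤ h) (hd : c * X * (M / (2 * K)) ≤ 4 * X1)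
    (hg : X2 ≤ C * (8 * X ^ 2) * M) (hh : h * X ≤ c / (128 * K * C)) (hf : X1 - h * X2 ≤ R) :
    c / (16 * K) * X * M ≤ R := by
  have k1 : c * X * M / (8 * K) ≤ X1 := by
    rw [alg1 c X M K hK]
    linarith
  have k2 : h * X2 ≤ c * X * M / (16 * K) := by
    have h3 : h * X2 ≤ h * (C * (8 * X ^ 2) * M) := mul_le_mul_of_nonneg_left hg h0
    have h4 : h * (C * (8 * X ^ 2) * M) = (h * X) * (8 * C * X * M) := by ring
    have h5 : (h * X) * (8 * C * X * M) ≤ (c / (128 * K * C)) * (8 * C * X * M) :=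
      mul_le_mul_of_nonneg_right hh (by positivity)
    have h6 := alg2 c X M K C hK hC
    linarith
  rw [alg3 c X M K hK]
  linarith

/-- FM. -/
theorem fm (hab : S_AB) (huu : S_UUA) : S_FM := by
  intro K hK
  obtain ⟨A, r0, c1, hA, hr0, hc1, hQ1⟩ := q_first (2 * K) (by linarith)
  obtain ⟨C, hC, hS2⟩ := snd_le
  have hK0 : 0 < K := by linarith
  refine ⟨A, r0, min 1 (c1 / (128 * K * C)), c1 / (16 * K), hA, hr0,
    lt_min one_pos (by positivity), min_le_left _ _, by positivity, ?_⟩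
  intro r hr p S I J I' J' c hD V hVS hV2 hbV h h0 h1 hh hdbl
  have hs1 : 1 ≤ A * r := Nat.mul_pos hA (by omega)
  have hQ := hQ1 r hr p S I J I' J' c (QScaleAux.domB_le (by omega) hD)
  generalize A * r = s at *
  have hp := hD.ok
  have hh' : h * (s : ℝ) ^ (3 / 4 : ℝ) ≤ c1 / (128 * K * C) := hh.trans (min_le_right _ _)
  obtain ⟨ab1, -, ab3, -⟩ := hab p hp S V I J hVS
  have hok : Ok (fun _ : Edg => h) := fun _ => ⟨h0, h1⟩
  have hB4 : blk c s ⊆ blk c (4 * s) := QH.blk_sub (by omega)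
  have hB416 : blk c (4 * s) ⊆ blk c (16 * s) := QH.blk_sub (by omega)
  have hb14 : blk c (s - 1) ⊆ blk c (4 * s) := QH.blk_sub (by omega)
  have hB16 : blk c (4 * (4 * s)) = blk c (16 * s) := by congr 1; omega
  have hsR : (1 : ℝ) ≤ (s : ℝ) := by exact_mod_cast hs1
  set X : ℝ := (s : ℝ) ^ (3/4 : ℝ) with hX
  have hX1 : 1 ≤ X := Real.one_le_rpow hsR (by norm_num)
  have hX2 : ((4 * s : ℕ) : ℝ) ^ (3/2 : ℝ) = 8 * X ^ 2 := by
    rw [Nat.cast_mul, Real.mul_rpow (by positivity) (by positivity)]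
    congr 1
    · have : ((4:ℕ):ℝ) = (2:ℝ) ^ (2:ℝ) := by norm_num
      rw [this, ← Real.rpow_mul (by norm_num)]
      norm_num
    · rw [hX, ← Real.rpow_natCast, ← Real.rpow_mul (by linarith)]
      norm_num
  set M := aB p S V I J (blk c (16 * s)) h with hM
  have hM0 : 0 ≤ M := (ab3 _ h h0 h1).1
  set U4 : Finset Edg → ℝ := fun W => UA p S (W \ blk c (4 * s))
    (fun F => BPv I J (blk c (4 * s)) ↑F) with hU4
  set U1 : Finset Edg → ℝ := fun W => UA p S (W \ blk c (4 * s))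
    (fun F => BPv I J (blk c (s - 1)) ↑F) with hU1
  set F1 : Finset Edg → ℝ := fun W => ∑ e ∈ blk c s, UA p S (W \ blk c (4 * s))
    (fun F => Pv I J e ↑F) with hF1
  -- (a)
  have ha : Ex (fun _ => h) V U4 ≤ M := ab1 _ _ h hB416 h0 h1
  -- (b)
  have hb : M ≤ K * Ex (fun _ => h) V U1 := by
    refine hdbl.trans (mul_le_mul_of_nonneg_left ?_ hK0.le)
    refine Ex_mono hok fun W hW => ?_
    refine huu p hp S _ _ _ ?_ (sdiff_subset.trans (hW.trans hVS))
    exact sdiff_subset_sdiff le_rfl hb14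
  -- (c)
  have hc : ∀ W : Finset Edg, W ⊆ V → c1 * X * (U1 W - U4 W / (2 * K)) ≤ F1 W := by
    intro W hW
    have hU10 : 0 ≤ U1 W := QH.UA_nonneg hp _ _ _
    have hU40 : 0 ≤ U4 W := QH.UA_nonneg hp _ _ _
    have hF10 : 0 ≤ F1 W := sum_nonneg fun e _ => QH.UA_nonneg hp _ _ _
    have h14 : U1 W ≤ U4 W := QH.UA_mono hp fun F hF => QH.BPv_mono hb14 hF
    by_cases hg : U4 W ≤ 2 * K * U1 W
    · have h3 := hQ (W \ blk c (4 * s)) (sdiff_subset.trans (hW.trans hVS))
        Finset.sdiff_disjoint hg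
      refine le_trans ?_ h3
      refine mul_le_mul_of_nonneg_left ?_ (by positivity)
      have : 0 ≤ U4 W / (2 * K) := by positivity
      linarith
    · push Not at hg
      refine le_trans ?_ hF10
      have h4 : U1 W - U4 W / (2 * K) ≤ 0 := by
        rw [sub_nonpos, le_div_iff₀ (by positivity)]
        linarith
      exact mul_nonpos_of_nonneg_of_nonpos (by positivity) h4
  -- (d)
  have hd : c1 * X * (M / (2 * K)) ≤ Ex (fun _ => h) V F1 := by
    have h3 := Ex_mono hok hc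
    have e3 : Ex (fun _ => h) V (fun W => c1 * X * (U1 W - U4 W / (2 * K))) =
        c1 * X * (Ex (fun _ => h) V U1 - Ex (fun _ => h) V U4 / (2 * K)) := by
      rw [Ex_mul_left, Ex_sub]
      congr 2
      rw [div_eq_mul_inv, ← Ex_mul_right]
      rfl
    rw [e3] at h3
    refine le_trans (mul_le_mul_of_nonneg_left ?_ (by positivity)) h3
    have h5 : M / K ≤ Ex (fun _ => h) V U1 := by
      rw [div_le_iff₀ hK0]
      linarith
    have h6 : Ex (fun _ => h) V U4 / (2 * K) ≤ M / (2 * K) :=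
      div_le_div_of_nonneg_right ha (by positivity)
    have h7 := alg4 M K hK0
    linarith
  -- (e)
  set X1 : ℝ := ∑ T ∈ V.powerset, sp p S V (fC I J) T * ((T ∩ blk c s).card : ℝ) *
    (1 - h) ^ (T \ blk c (4 * s)).card with hX1d
  have he : Ex (fun _ => h) V F1 = 4 * X1 := by
    rw [hX1d, ← avg_sum, ← Ex_mul_left]
    refine Ex_congr fun W hW => ?_
    refine fst_eq hVS hV2 (sdiff_subset.trans hW) ?_ I J
    intro x hx
    rw [mem_sdiff]
    exact ⟨hbV (hB416 (hB4 hx)), fun h3 => (mem_sdiff.1 h3).2 (hB4 hx)⟩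
  -- (g)
  set X2 : ℝ := ∑ T ∈ V.powerset, sp p S V (fC I J) T * ((T ∩ blk c (4 * s)).card : ℝ) ^ 2 *
    (1 - h) ^ (T \ blk c (16 * s)).card with hX2d
  have hg : X2 ≤ C * (8 * X ^ 2) * M := by
    rw [hX2d, ← avg_sum, hM]
    unfold aB
    rw [← Ex_mul_left]
    refine Ex_mono hok fun W hW => ?_
    have h3 := hS2 (4 * s) (by omega) p S I J I' J' c
      (QScaleAux.domB_le (by omega) hD) V (W \ blk c (16 * s)) hVS hV2
      (sdiff_subset.trans hW) (by rw [hB16]; exact hbV) (by rw [hB16]; exact sdiff_disjoint)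
    rw [hX2, hB16] at h3
    exact h3
  -- (f)
  have hf : X1 - h * X2 ≤ ∑ T ∈ V.powerset,
      sp p S V (fC I J) T * (1 - h) ^ T.card * ((T ∩ blk c s).card : ℝ) := by
    rw [hX1d, hX2d, mul_sum, ← sum_sub_distrib]
    refine sum_le_sum fun T _ => ?_
    have hsp := QH.sp_nonneg hp S V (fC I J) T
    have hcard : T.card = (T \ blk c (4 * s)).card + (T ∩ blk c (4 * s)).card := by
      rw [card_sdiff_add_card_inter]
    have hbern : 1 - h * ((T ∩ blk c (4 * s)).card : ℝ) ≤ (1 - h) ^ (T ∩ blk c (4 * s)).card := by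
      have := one_add_mul_le_pow (a := -h) (by linarith) (T ∩ blk c (4 * s)).card
      have e4 : 1 + ((T ∩ blk c (4 * s)).card : ℝ) * -h =
          1 - h * ((T ∩ blk c (4 * s)).card : ℝ) := by ring
      rw [e4, ← sub_eq_add_neg] at this
      exact this
    have hpw : (1 - h) ^ (T \ blk c (4 * s)).card ≤ (1 - h) ^ (T \ blk c (16 * s)).card := by
      refine pow_le_pow_of_le_one (by linarith) (by linarith) ?_
      exact card_le_card (sdiff_subset_sdiff le_rfl hB416)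
    have hcc : ((T ∩ blk c s).card : ℝ) ≤ ((T ∩ blk c (4 * s)).card : ℝ) := by
      exact_mod_cast card_le_card (inter_subset_inter_left hB4)
    rw [hcard, pow_add]
    have hw0 : 0 ≤ (1 - h) ^ (T \ blk c (4 * s)).card := pow_nonneg (by linarith) _
    generalize (1 - h) ^ (T \ blk c (4 * s)).card = w at *
    generalize (1 - h) ^ (T \ blk c (16 * s)).card = w' at *
    generalize (1 - h) ^ (T ∩ blk c (4 * s)).card = z at *
    have hn0 : (0:ℝ) ≤ ((T ∩ blk c s).card : ℝ) := Nat.cast_nonneg _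
    generalize ((T ∩ blk c s).card : ℝ) = n at *
    generalize ((T ∩ blk c (4 * s)).card : ℝ) = m at *
    generalize sp p S V (fC I J) T = a at *
    have i1 : a * w * n * (1 - h * m) ≤ a * w * n * z :=
      mul_le_mul_of_nonneg_left hbern (by positivity)
    have i2 : n * m * w ≤ m ^ 2 * w' := by
      have : n * m ≤ m ^ 2 := by nlinarith
      exact mul_le_mul this hpw hw0 (by positivity)
    have i3 : h * (a * (n * m * w)) ≤ h * (a * (m ^ 2 * w')) :=
      mul_le_mul_of_nonneg_left (mul_le_mul_of_nonneg_left i2 hsp) h0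
    nlinarith
  -- (h)
  rw [he] at hd
  exact alg5 hc1 (by linarith) hM0 hK0 hC h0 hd hg hh' hf

end Pool.Agent.Y629.SN
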